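import Pool.Agent.ABCP.Stmts
import Pool.Agent.Helper51_ABC3.PER

/-!
# Squad ABCP, row PER (helper10): permanents (adaptation of helper51's file for `p = 3`)
-/

set_option autoImplicit false

namespace Pool.Agent.ABCP.H10

open Matrix
open Pool.Agent.ABC3 (St sdeg xc mu mu_def xc_comm xc_sq mu_comm mu_deg HasDeg HomV kr)

variable {K : Type} [Field K] {ι : Type} [Fintype ι] [DecidableEq ι]

theorem pairs_prod {m n : ℕ} (Y : Matrix (Fin n) ι K) (t : List (Fin n)) :
    ((t.flatMap (fun i => (List.finRange m).map (fun a => (a, i)))).map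
      (fun r : Fin m × Fin n => mu (Y r.2))).prod = (t.map (fun i => mu (Y i) ^ m)).prod := by
  induction t with
  | nil => simp
  | cons a t ih =>
    rw [List.flatMap_cons, List.map_append, List.prod_append, ih, List.map_cons, List.prod_cons]
    congr 1
    rw [List.map_map]
    have h1 : (fun r : Fin m × Fin n => mu (Y r.2)) ∘ (fun b : Fin m => (b, a)) =
        fun _ => mu (Y a) := rfl
    rw [h1, List.map_const', List.prod_replicate, List.length_finRange]

theorem per : PERStmt := by
  intro K _ m n ι _ _ Y h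
  classical
  let l : List (Fin m × Fin n) :=
    (List.finRange n).flatMap (fun i => (List.finRange m).map (fun a => (a, i)))
  have hl : (List.ofFn (fun i => mu (Y i) ^ m)).prod =
      (l.map (fun r : Fin m × Fin n => mu (Y r.2))).prod := by
    rw [List.ofFn_eq_map]
    exact (pairs_prod Y _).symm
  have hmem : ∀ r : Fin m × Fin n, r ∈ l := by
    rintro ⟨a, i⟩
    exact List.mem_flatMap.2 ⟨i, List.mem_finRange i,
      List.mem_map.2 ⟨a, List.mem_finRange a, rfl⟩⟩
  have hnd : l.Nodup := by
    refine List.nodup_flatMap.2 ⟨fun i _ => ?_, ?_⟩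
    · refine (List.nodup_finRange m).map ?_
      intro a b hab
      exact congrArg (fun q : Fin m × Fin n => q.1) hab
    · refine (List.nodup_finRange n).imp ?_
      intro i j hij
      show List.Disjoint _ _
      intro r hr hr'
      obtain ⟨a, -, ha⟩ := List.mem_map.1 hr
      obtain ⟨b, -, hb⟩ := List.mem_map.1 hr'
      apply hij
      have h1 := congrArg (fun q : Fin m × Fin n => q.2) (ha.trans hb.symm)
      exact h1
  let e : Fin l.length ≃ Fin m × Fin n := hnd.getEquivOfForallMemList l hmem
  have he : ∀ j, e j = l.get j := fun j => rfl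
  rw [hl] at h
  obtain ⟨s, hs⟩ := Function.ne_iff.1 h
  rw [Pool.Agent.ABC3.H51.prod_mulVec (fun r : Fin m × Fin n => Y r.2), Pi.zero_apply] at hs
  obtain ⟨f0, -, hf0⟩ := Finset.exists_ne_zero_of_sum_ne_zero hs
  have hg : Pool.Agent.ABC3.H51.Gd f0 s := by
    by_contra hc
    exact hf0 (if_neg hc)
  refine ⟨fun c => f0 (e.symm c), ?_, ?_⟩
  · intro a b hab
    have := hg.1 hab
    simpa using this
  · rw [Pool.Agent.ABC3.H51.perm_eq e (fun r : Fin m × Fin n => Y r.2) s f0 hg]
    exact hs

end Pool.Agent.ABCP.H10
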