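import Pool.Agent.ABCP.Stmts
import Pool.Agent.Helper56_ABC3.KRS

/-!
# Squad ABCP, row TRK (helper10): relative traces on tensor products
-/

set_option autoImplicit false

namespace Pool.Agent.ABCP.H10

open Matrix
open Pool.Agent.ABC3 (St sdeg xc mu mu_def xc_comm xc_sq mu_comm mu_deg HasDeg HomV kr)

section

variable {K : Type} [Field K] {ι ι₁ ι₂ : Type}

theorem kr_sub_left (σ : ι₁ ⊕ ι₂ ≃ ι) (A A' : Matrix (St ι₁) (St ι₁) K)
    (C : Matrix (St ι₂) (St ι₂) K) : kr σ (A - A') C = kr σ A C - kr σ A' C := by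
  ext s s'
  rw [Matrix.sub_apply]
  unfold kr
  rw [Matrix.sub_apply, sub_mul]

theorem kr_zero_left (σ : ι₁ ⊕ ι₂ ≃ ι) (C : Matrix (St ι₂) (St ι₂) K) :
    kr σ (0 : Matrix (St ι₁) (St ι₁) K) C = 0 := by
  ext s s'
  unfold kr
  rw [Matrix.zero_apply, Matrix.zero_apply, zero_mul]

theorem kr_sum_left' {κ : Type} (σ : ι₁ ⊕ ι₂ ≃ ι) (t : Finset κ) (A : κ → Matrix (St ι₁) (St ι₁) K)
    (C : Matrix (St ι₂) (St ι₂) K) : kr σ (∑ i ∈ t, A i) C = ∑ i ∈ t, kr σ (A i) C := by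
  ext s s'
  rw [Matrix.sum_apply]
  unfold kr
  rw [Matrix.sum_apply, Finset.sum_mul]

end

theorem Tr_zero {p : ℕ} {K Q B : Type} [Field K] [AddCommGroup Q] [Module K Q] [Fintype B]
    [DecidableEq B] (S : Sys p K Q B) (q : Q) : Tr S q 0 = 0 := by
  unfold Tr
  apply Finset.sum_eq_zero
  intro i _
  rw [mul_zero, zero_mul]

section

variable {p : ℕ} [hp : Fact p.Prime] {K Q : Type} [Field K] [CharP K p] [AddCommGroup Q]
  [Module K Q] {ι ι₁ ι₂ : Type} [Fintype ι] [DecidableEq ι] [Fintype ι₁] [DecidableEq ι₁]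
  [Fintype ι₂] [DecidableEq ι₂]

theorem act_split (σ : ι₁ ⊕ ι₂ ≃ ι) (ev : ι → (Q →ₗ[K] K)) (q : Q) :
    (TSys p ev).act q = kr σ ((TSys p (fun i => ev (σ (Sum.inl i)))).act q) 1 +
      kr σ 1 ((TSys p (fun i => ev (σ (Sum.inr i)))).act q) := by
  rw [TSys_act, TSys_act, TSys_act]
  exact (Pool.Agent.ABC3.H56.krs K ι ι₁ ι₂ σ).2.2.2.2.1 (fun c => ev c q)

theorem left_mul (σ : ι₁ ⊕ ι₂ ≃ ι) (ev : ι → (Q →ₗ[K] K)) (q : Q)
    (A : Matrix (St ι₁) (St ι₁) K) : (TSys p ev).act q * kr σ A 1 =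
      kr σ ((TSys p (fun i => ev (σ (Sum.inl i)))).act q * A) 1 +
      kr σ A ((TSys p (fun i => ev (σ (Sum.inr i)))).act q) := by
  have hm := (Pool.Agent.ABC3.H56.krs K ι ι₁ ι₂ σ).1
  rw [act_split σ, add_mul, hm, hm, mul_one, mul_one, one_mul]

theorem right_mul (σ : ι₁ ⊕ ι₂ ≃ ι) (ev : ι → (Q →ₗ[K] K)) (q : Q)
    (A : Matrix (St ι₁) (St ι₁) K) : kr σ A 1 * (TSys p ev).act q =
      kr σ (A * (TSys p (fun i => ev (σ (Sum.inl i)))).act q) 1 +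
      kr σ A ((TSys p (fun i => ev (σ (Sum.inr i)))).act q) := by
  have hm := (Pool.Agent.ABC3.H56.krs K ι ι₁ ι₂ σ).1
  rw [act_split σ, mul_add, hm, hm, mul_one, mul_one, one_mul]

theorem ad_kr (σ : ι₁ ⊕ ι₂ ≃ ι) (ev : ι → (Q →ₗ[K] K)) (q : Q)
    (A : Matrix (St ι₁) (St ι₁) K) :
    (LinearMap.mulLeft K ((TSys p ev).act q) - LinearMap.mulRight K ((TSys p ev).act q))
      (kr σ A 1) =
    kr σ ((LinearMap.mulLeft K ((TSys p (fun i => ev (σ (Sum.inl i)))).act q) -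
      LinearMap.mulRight K ((TSys p (fun i => ev (σ (Sum.inl i)))).act q)) A) 1 := by
  rw [LinearMap.sub_apply, LinearMap.sub_apply, LinearMap.mulLeft_apply,
    LinearMap.mulRight_apply, LinearMap.mulLeft_apply, LinearMap.mulRight_apply, left_mul σ,
    right_mul σ, kr_sub_left]
  abel

theorem ad_pow_kr (σ : ι₁ ⊕ ι₂ ≃ ι) (ev : ι → (Q →ₗ[K] K)) (q : Q) (n : ℕ)
    (A : Matrix (St ι₁) (St ι₁) K) :
    ((LinearMap.mulLeft K ((TSys p ev).act q) - LinearMap.mulRight K ((TSys p ev).act q)) ^ n)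
      (kr σ A 1) =
    kr σ (((LinearMap.mulLeft K ((TSys p (fun i => ev (σ (Sum.inl i)))).act q) -
      LinearMap.mulRight K ((TSys p (fun i => ev (σ (Sum.inl i)))).act q)) ^ n) A) 1 := by
  induction n with
  | zero => rfl
  | succ n ih =>
    rw [pow_succ', pow_succ', Module.End.mul_apply, Module.End.mul_apply, ih, ad_kr]

theorem Tr_kr (hT : TRCStmt) (σ : ι₁ ⊕ ι₂ ≃ ι) (ev : ι → (Q →ₗ[K] K)) (q : Q)
    (A : Matrix (St ι₁) (St ι₁) K) :
    Tr (TSys p ev) q (kr σ A 1) = kr σ (Tr (TSys p (fun i => ev (σ (Sum.inl i)))) q A) 1 := by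
  rw [(hT p K Q (St ι) (TSys p ev)).2.2.2.1,
    (hT p K Q (St ι₁) (TSys p (fun i => ev (σ (Sum.inl i))))).2.2.2.1, ad_pow_kr]

theorem Com_kr (σ : ι₁ ⊕ ι₂ ≃ ι) (ev : ι → (Q →ₗ[K] K)) (P : Submodule K Q)
    (A : Matrix (St ι₁) (St ι₁) K) (h : Com (TSys p (fun i => ev (σ (Sum.inl i)))) P A) :
    Com (TSys p ev) P (kr σ A 1) := by
  intro x hx
  rw [left_mul σ, right_mul σ, h x hx]

end

theorem HasDeg_one {K : Type} [Field K] {ι : Type} [Fintype ι] [DecidableEq ι] :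
    HasDeg (sdeg : St ι → ℤ) 0 (1 : Matrix (St ι) (St ι) K) := by
  intro s s' h
  by_cases hs : s = s'
  · rw [hs, add_zero]
  · exact absurd (Matrix.one_apply_ne hs) h

theorem trk (hT : TRCStmt) : TRKStmt := by
  intro p hp K Q _ _ _ _ ι ι₁ ι₂ _ _ _ _ _ _ σ ev f hf
  obtain ⟨g, hg, hsum⟩ := hf
  refine ⟨fun c => Sum.elim (fun i => kr σ (g i) 1) (fun _ => 0) (σ.symm c), ?_, ?_⟩
  · intro c
    obtain ⟨x, rfl⟩ := σ.surjective c
    beta_reduce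
    rw [Equiv.symm_apply_apply]
    rcases x with i | j
    · rw [Sum.elim_inl]
      refine ⟨?_, Com_kr σ ev _ _ (hg i).2⟩
      have h1 := (Pool.Agent.ABC3.H56.krs K ι ι₁ ι₂ σ).2.2.2.2.2 (-((p : ℤ) - 1)) 0 (g i) 1
        (hg i).1 HasDeg_one
      rw [add_zero] at h1
      exact h1
    · rw [Sum.elim_inr]
      exact ⟨fun s s' h => absurd rfl h, fun x _ => by rw [mul_zero, zero_mul]⟩
  · intro q hq
    rw [← σ.sum_comp, Fintype.sum_sum_type]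
    have h1 := hsum (fun i => q (σ (Sum.inl i))) (fun i => hq _)
    rw [h1, kr_sum_left']
    have h2 : ∑ j : ι₂, Tr (TSys p ev) (q (σ (Sum.inr j)))
        (Sum.elim (fun i => kr σ (g i) 1) (fun _ => 0) (σ.symm (σ (Sum.inr j)))) = 0 := by
      apply Finset.sum_eq_zero
      intro j _
      rw [Equiv.symm_apply_apply, Sum.elim_inr, Tr_zero]
    rw [h2, add_zero]
    apply Finset.sum_congr rfl
    intro i _
    beta_reduce
    rw [Equiv.symm_apply_apply, Sum.elim_inl, Tr_kr hT]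

end Pool.Agent.ABCP.H10
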